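import Pool.Agent.H7.Lmi3

namespace Pool.Agent.Results.MP_0eb722_an.Exactness

open Pool.Agent.H7.Mu
open scoped Matrix

theorem char (n : ℕ) (θ : ℝ) (h0 : 0 ≤ θ) (h1 : θ ≤ Real.pi / 2) (M : Matrix (Fin n) (Fin n) ℂ) :
    mu θ M = muHat θ M ↔ ∀ x : Fin n → ℂ, en x = 1 → InSector θ (-(star x ⬝ᵥ M *ᵥ x)) →
        ∃ y : Fin n → ℂ, en y = 1 ∧ en (M *ᵥ x) ≤ en (M *ᵥ y) ∧
          Real.cos θ * en (M *ᵥ y) ≤ -(star y ⬝ᵥ M *ᵥ y).re := by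
  rw [main h0 h1, forall_lp]
  simp only [exists_lp (n := n), en_eq, en_op, form_eq, inSector_iff h0 h1]

theorem result :
    (∀ (n : ℕ) (θ : ℝ), 0 ≤ θ → θ ≤ Real.pi / 2 → ∀ M : Matrix (Fin n) (Fin n) ℂ,
      (mu θ M = muHat θ M ↔ ∀ x : Fin n → ℂ, en x = 1 → InSector θ (-(star x ⬝ᵥ M *ᵥ x)) →
        ∃ y : Fin n → ℂ, en y = 1 ∧ en (M *ᵥ x) ≤ en (M *ᵥ y) ∧
          Real.cos θ * en (M *ᵥ y) ≤ -(star y ⬝ᵥ M *ᵥ y).re)) ∧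
    (∀ (n : ℕ) (M : Matrix (Fin n) (Fin n) ℂ), mu (Real.pi / 2) M = muHat (Real.pi / 2) M) ∧
    (∀ θ : ℝ, 0 ≤ θ → θ < Real.pi / 2 →
      mu θ (!![0, 1; 0, 0] : Matrix (Fin 2) (Fin 2) ℂ) < muHat θ !![0, 1; 0, 0]) := by
  refine ⟨char, fun n M => ?_, fun θ h0 h1 => ?_⟩
  · have h0 : 0 ≤ Real.pi / 2 := by positivity
    rw [char n _ h0 le_rfl]
    intro x hx h
    rw [inSector_iff h0 le_rfl] at h
    exact ⟨x, hx, le_rfl, by simpa [Sec] using h⟩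
  · refine lt_of_le_of_ne (mu_le_muHat h0 h1.le _) fun h => ?_
    have hc : 0 < Real.cos θ := Real.cos_pos_of_mem_Ioo ⟨by linarith [Real.pi_pos], h1⟩
    obtain ⟨y, h2, h3, h4⟩ := (char 2 θ h0 h1.le _).mp h ![0, 1] (by simp [en])
      (Or.inl (by simp [dotProduct, Matrix.mulVec]))
    have e1 : en ((!![0, 1; 0, 0] : Matrix (Fin 2) (Fin 2) ℂ) *ᵥ ![0, 1]) = 1 := by
      simp [en, Matrix.mulVec, dotProduct]
    have e2 : en ((!![0, 1; 0, 0] : Matrix (Fin 2) (Fin 2) ℂ) *ᵥ y) = ‖y 1‖ := by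
      simp [en, Matrix.mulVec, dotProduct]
    rw [e1, e2] at h3
    rw [e2] at h4
    simp only [en, Fin.sum_univ_two, Real.sqrt_eq_one] at h2
    have h5 : y 0 = 0 := by
      rw [← norm_eq_zero, ← sq_eq_zero_iff]
      nlinarith [sq_nonneg ‖y 0‖]
    have e3 : star y ⬝ᵥ (!![0, 1; 0, 0] : Matrix (Fin 2) (Fin 2) ℂ) *ᵥ y = 0 := by
      simp [dotProduct, Matrix.mulVec, h5]
    rw [e3] at h4
    simp only [Complex.zero_re, neg_zero] at h4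
    nlinarith

end Pool.Agent.Results.MP_0eb722_an.Exactness
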